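import Pool.Agent.X294.GR.Fin

/-!
# MP_315d97_co, Q1: the growth rates of (nearly) off-diagonally symmetric tilings

By the known Pfaffian formulas `|O(2n, [2n])| = pf A_[2n]` and `|D(2n-1)| = pf B_{2n}`, with the array
`a_{ij}` and the numbers `f_k` of the problem file.  We prove that both limits exist and are `√2`,
with explicit bounds.

The proof: with `q = √2 - 1`, `z = (x + q)/(1 - q x)`, `w = (y + q)/(1 - q y)` and
`r = 1/(1 - q x)`, `r' = 1/(1 - q y)`, one has
`(y - x)/((1 + x y)(1 - x - y - x y)) = 2 q r r' (w - z)/(1 - z² w²)`.  All minors of the vectors of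
coefficients of `z^k r` are positive multiples of Vandermonde products, so that the Pfaffian is a sum of
positive terms, and it can be compared with the Pfaffian of `r r' (w - z)/(1 - z w)`, which is explicit:
the second is at least the first, and (multiplication by `(1 + z)(1 + w)`, the Pieri rule) at most
`(1 + q)^{2n}` times the first.
-/

namespace Pool.Agent.Results.MP_315d97_co.GrowthRates

open Pool.Agent.X294.GR Filter

/-- **Main result.**  `aa i j` is the skew-symmetric array of the problem file, `ff k` are the numbers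
`f_k`; `Amat (2n)` is the leading `2n × 2n` matrix of the array and `Bmat n` the matrix `B_{2n}`. -/
theorem result :
    -- the array and the numbers of the problem file
    ((∀ j, 1 < j → aa 1 j = 2) ∧
      (∀ i j, 1 < i → i + 1 < j → aa i j = aa (i - 1) j + aa i (j - 1) + aa (i - 1) (j - 1)) ∧
      (∀ i, 1 < i → aa i (i + 1) = aa (i - 1) (i + 1) + aa (i - 1) i + 2 * (-1) ^ (i - 1)) ∧
      (∀ i j, j ≤ i → aa i j = - aa j i) ∧
      ff 1 = 2 ∧ ff 2 = 4 ∧ (∀ k, ff (k + 3) = 2 * ff (k + 2) + ff (k + 1))) ∧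
    -- explicit bounds
    (∀ n : ℕ, (2 - √2) ^ n * 2 ^ (n ^ 2) ≤ pf (Amat (2 * n)) ∧
      pf (Amat (2 * n)) ≤ (4 - 2 * √2) ^ n * 2 ^ (n ^ 2)) ∧
    (∀ n : ℕ, (2 : ℝ) ^ (n ^ 2) ≤ 64 ^ n * pf (Bmat n)) ∧
    -- both limits
    Tendsto (fun n : ℕ => (pf (Amat (2 * n))) ^ ((2 : ℝ) / (2 * n) ^ 2)) atTop (nhds (√2)) ∧
    Tendsto (fun n : ℕ => (pf (Bmat n)) ^ ((2 : ℝ) / (2 * n - 1) ^ 2)) atTop (nhds (√2)) := by
  have hs : √(2 : ℝ) ^ 2 = 2 := Real.sq_sqrt (by norm_num)
  refine ⟨⟨aa_1, aa_2, aa_3, aa_4, rfl, rfl, fun k => rfl⟩, ?_, ?_, O_limit, B_limit⟩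
  · intro n
    obtain ⟨h1, h2⟩ := O_bounds n
    have hq : 1 + q ^ 2 = 4 - 2 * √2 := by
      unfold q; linear_combination hs
    rw [hq] at h1 h2
    refine ⟨?_, h2⟩
    have h3 : (4 - 2 * √(2 : ℝ)) ^ n = 2 ^ n * (2 - √2) ^ n := by
      rw [← mul_pow]; congr 1; ring
    rw [h3, mul_assoc] at h1
    exact le_of_mul_le_mul_left h1 (by positivity)
  · intro n
    rcases n with _ | M
    · simp only [pf_Bmat0]; norm_num
    · exact B_lower M

end Pool.Agent.Results.MP_315d97_co.GrowthRates
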